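import Pool.Agent.Lib.ECG.Trig
import Pool.Agent.Lib.Pec6744.Main

/-!
# Hull edges of a finite planar set and insertion of a point
-/

namespace Pool.Agent.Lib.ECG

open Pool.Agent.Lib.Pec6744 Real Filter Topology

open Classical in
/-- the directed hull edges (the set lies strictly to the left) -/
noncomputable def Ed (T : Finset E2) : Finset (E2 × E2) :=
  (T ×ˢ T).filter (fun e => e.1 ≠ e.2 ∧ ∀ c ∈ T, c ≠ e.1 → c ≠ e.2 → 0 < orient e.1 e.2 c)

theorem mem_Ed {T : Finset E2} {a b : E2} : (a, b) ∈ Ed T ↔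
    a ∈ T ∧ b ∈ T ∧ a ≠ b ∧ ∀ c ∈ T, c ≠ a → c ≠ b → 0 < orient a b c := by
  classical
  unfold Ed
  rw [Finset.mem_filter, Finset.mem_product]
  simp only [and_assoc]

/-- coordinates of a linear functional -/
theorem clm_apply (f : E2 →L[ℝ] ℝ) (q : E2) :
    f q = f (EuclideanSpace.single 0 1) * q 0 + f (EuclideanSpace.single 1 1) * q 1 := by
  have e : q = q 0 • EuclideanSpace.single (0 : Fin 2) (1 : ℝ) +
      q 1 • EuclideanSpace.single (1 : Fin 2) (1 : ℝ) := by
    ext i
    fin_cases i <;> simp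
  conv_lhs => rw [e]
  rw [map_add, map_smul, map_smul, smul_eq_mul, smul_eq_mul]
  ring

/-- separation of a hull vertex -/
theorem exists_sep {T : Finset E2} {a : E2} (ha : a ∈ extPts T) :
    ∃ x y : ℝ, ∀ b ∈ T, b ≠ a → 0 < x * (b 0 - a 0) + y * (b 1 - a 1) := by
  classical
  have hfin : ((T : Set E2) \ {a}).Finite := T.finite_toSet.subset Set.sdiff_subset
  have hcl : IsClosed (convexHull ℝ ((T : Set E2) \ {a})) :=
    (hfin.isCompact_convexHull ℝ).isClosed
  obtain ⟨f, u, h1, h2⟩ := geometric_hahn_banach_point_closed (convex_convexHull ℝ _) hcl ha.2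
  refine ⟨f (EuclideanSpace.single 0 1), f (EuclideanSpace.single 1 1), fun b hb hba => ?_⟩
  have h3 := h2 b (subset_convexHull ℝ _ ⟨hb, hba⟩)
  rw [clm_apply f a] at h1
  rw [clm_apply f b] at h3
  linarith

theorem sep_identity (x y : ℝ) (a b c : E2) :
    (x ^ 2 + y ^ 2) * orient a b c =
      (x * (b 0 - a 0) + y * (b 1 - a 1)) * (-y * (c 0 - a 0) + x * (c 1 - a 1)) -
      (-y * (b 0 - a 0) + x * (b 1 - a 1)) * (x * (c 0 - a 0) + y * (c 1 - a 1)) := by
  unfold orient; ring

/-- from a hull vertex there is an outgoing edge -/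
theorem exists_out {T : Finset E2} (hT : GenPos T) {a : E2} (ha : a ∈ extPts T)
    (h2 : 2 ≤ T.card) : ∃ b, (a, b) ∈ Ed T := by
  classical
  obtain ⟨x, y, hxy⟩ := exists_sep ha
  have hne : (T.erase a).Nonempty := by
    rw [← Finset.card_pos, Finset.card_erase_of_mem ha.1]; omega
  set φ : E2 → ℝ := fun q => x * (q 0 - a 0) + y * (q 1 - a 1) with hφ
  set ψ : E2 → ℝ := fun q => -y * (q 0 - a 0) + x * (q 1 - a 1) with hψ
  obtain ⟨b, hb, hmin⟩ := (T.erase a).exists_min_image (fun q => ψ q / φ q) hne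
  have hbT := Finset.mem_of_mem_erase hb
  have hba := Finset.ne_of_mem_erase hb
  have hpos : 0 < x ^ 2 + y ^ 2 := by
    have h1 := hxy b hbT hba
    rcases (add_nonneg (sq_nonneg x) (sq_nonneg y)).eq_or_lt with h | h
    · exfalso
      have hx : x = 0 := by nlinarith [sq_nonneg x, sq_nonneg y]
      have hy : y = 0 := by nlinarith [sq_nonneg x, sq_nonneg y]
      rw [hx, hy] at h1
      simp at h1
    · exact h
  refine ⟨b, mem_Ed.2 ⟨ha.1, hbT, hba.symm, fun c hc hca hcb => ?_⟩⟩
  have h1 : 0 < φ b := hxy b hbT hba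
  have h3 : 0 < φ c := hxy c hc hca
  have h4 := hmin c (Finset.mem_erase.2 ⟨hca, hc⟩)
  rw [div_le_div_iff₀ h1 h3] at h4
  have h5 := sep_identity x y a b c
  have h6 : 0 ≤ (x ^ 2 + y ^ 2) * orient a b c := by
    rw [h5]
    have : (x * (b 0 - a 0) + y * (b 1 - a 1)) * (-y * (c 0 - a 0) + x * (c 1 - a 1)) =
      φ b * ψ c := rfl
    rw [this]
    have : (-y * (b 0 - a 0) + x * (b 1 - a 1)) * (x * (c 0 - a 0) + y * (c 1 - a 1)) =
      ψ b * φ c := rfl
    rw [this]
    linarith
  have h7 : 0 ≤ orient a b c := nonneg_of_mul_nonneg_right h6 hpos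
  exact lt_of_le_of_ne h7 (Ne.symm (hT a ha.1 b hbT c hc hba.symm hca.symm hcb.symm))

/-- to a hull vertex there is an incoming edge -/
theorem exists_in {T : Finset E2} (hT : GenPos T) {a : E2} (ha : a ∈ extPts T)
    (h2 : 2 ≤ T.card) : ∃ b, (b, a) ∈ Ed T := by
  classical
  obtain ⟨x, y, hxy⟩ := exists_sep ha
  have hne : (T.erase a).Nonempty := by
    rw [← Finset.card_pos, Finset.card_erase_of_mem ha.1]; omega
  set φ : E2 → ℝ := fun q => x * (q 0 - a 0) + y * (q 1 - a 1) with hφ
  set ψ : E2 → ℝ := fun q => -y * (q 0 - a 0) + x * (q 1 - a 1) with hψ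
  obtain ⟨b, hb, hmax⟩ := (T.erase a).exists_max_image (fun q => ψ q / φ q) hne
  have hbT := Finset.mem_of_mem_erase hb
  have hba := Finset.ne_of_mem_erase hb
  have hpos : 0 < x ^ 2 + y ^ 2 := by
    have h1 := hxy b hbT hba
    rcases (add_nonneg (sq_nonneg x) (sq_nonneg y)).eq_or_lt with h | h
    · exfalso
      have hx : x = 0 := by nlinarith [sq_nonneg x, sq_nonneg y]
      have hy : y = 0 := by nlinarith [sq_nonneg x, sq_nonneg y]
      rw [hx, hy] at h1
      simp at h1
    · exact h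
  refine ⟨b, mem_Ed.2 ⟨hbT, ha.1, hba, fun c hc hcb hca => ?_⟩⟩
  have h1 : 0 < φ b := hxy b hbT hba
  have h3 : 0 < φ c := hxy c hc hca
  have h4 := hmax c (Finset.mem_erase.2 ⟨hca, hc⟩)
  rw [div_le_div_iff₀ h3 h1] at h4
  have h5 := sep_identity x y a b c
  have h6 : 0 ≤ (x ^ 2 + y ^ 2) * orient b a c := by
    rw [orient_swap b a c, mul_neg, h5]
    have : (x * (b 0 - a 0) + y * (b 1 - a 1)) * (-y * (c 0 - a 0) + x * (c 1 - a 1)) =
      φ b * ψ c := rfl
    rw [this]
    have : (-y * (b 0 - a 0) + x * (b 1 - a 1)) * (x * (c 0 - a 0) + y * (c 1 - a 1)) =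
      ψ b * φ c := rfl
    rw [this]
    linarith
  have h7 : 0 ≤ orient b a c := nonneg_of_mul_nonneg_right h6 hpos
  exact lt_of_le_of_ne h7 (Ne.symm (hT b hbT a ha.1 c hc hba hcb.symm hca.symm))

theorem out_unique {T : Finset E2} {a b b' : E2} (h : (a, b) ∈ Ed T) (h' : (a, b') ∈ Ed T) :
    b = b' := by
  by_contra hne
  obtain ⟨h1, h2, h3, h4⟩ := mem_Ed.1 h
  obtain ⟨k1, k2, k3, k4⟩ := mem_Ed.1 h'
  have e1 := h4 b' k2 k3.symm (Ne.symm hne)
  have e2 := k4 b h2 h3.symm hne
  have : orient a b b' = - orient a b' b := by unfold orient; ring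
  linarith

theorem in_unique {T : Finset E2} {a b b' : E2} (h : (b, a) ∈ Ed T) (h' : (b', a) ∈ Ed T) :
    b = b' := by
  by_contra hne
  obtain ⟨h1, h2, h3, h4⟩ := mem_Ed.1 h
  obtain ⟨k1, k2, k3, k4⟩ := mem_Ed.1 h'
  have e1 := h4 b' k1 (Ne.symm hne) k3
  have e2 := k4 b h1 hne h3
  have : orient b a b' = - orient b' a b := by unfold orient; ring
  linarith

theorem ext_of_Ed_left {T : Finset E2} {a b : E2} (h : (a, b) ∈ Ed T) : a ∈ extPts T := by
  obtain ⟨h1, h2, h3, h4⟩ := mem_Ed.1 h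
  exact ext_of_edge h1 h3 h4

theorem ext_of_Ed_right {T : Finset E2} {a b : E2} (h : (a, b) ∈ Ed T) : b ∈ extPts T := by
  obtain ⟨h1, h2, h3, h4⟩ := mem_Ed.1 h
  exact ext_of_edge' h2 h3 h4

/-- the number of edges is the number of hull vertices -/
theorem Ed_card {T : Finset E2} (hT : GenPos T) (h2 : 2 ≤ T.card) :
    (Ed T).card = (extPts T).ncard := by
  classical
  have h : extPts T = (((Ed T).image Prod.fst : Finset E2) : Set E2) := by
    ext a
    rw [Finset.coe_image]
    constructor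
    · intro ha
      obtain ⟨b, hb⟩ := exists_out hT ha h2
      exact ⟨(a, b), hb, rfl⟩
    · rintro ⟨⟨a', b⟩, hb, rfl⟩
      exact ext_of_Ed_left hb
  rw [h, Set.ncard_coe_finset, Finset.card_image_of_injOn]
  rintro ⟨a, b⟩ hb ⟨a', b'⟩ hb' heq
  simp only at heq
  subst heq
  rw [out_unique hb hb']

/-- **Insertion formula.** A new hull vertex removes the visible edges and adds two. -/
theorem Ed_insert [DecidableEq E2] {T : Finset E2} {p : E2} (hT : GenPos (insert p T)) (hp : p ∉ T)
    (h2 : 1 ≤ T.card) (hext : p ∈ extPts (insert p T)) :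
    (Ed (insert p T)).card + ((Ed T).filter (fun e => orient e.1 e.2 p < 0)).card =
      (Ed T).card + 2 := by
  classical
  have hc : 2 ≤ (insert p T).card := by rw [Finset.card_insert_of_notMem hp]; omega
  obtain ⟨b, hb⟩ := exists_out hT hext hc
  obtain ⟨a, ha⟩ := exists_in hT hext hc
  set X := (Ed T).filter (fun e => ¬ orient e.1 e.2 p < 0) with hX
  have hEq : Ed (insert p T) = insert (p, b) (insert (a, p) X) := by
    ext ⟨x, y⟩
    constructor
    · intro hxy
      by_cases hxp : x = p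
      · subst hxp
        rw [out_unique hxy hb]
        exact Finset.mem_insert_self _ _
      by_cases hyp : y = p
      · subst hyp
        rw [in_unique hxy ha]
        exact Finset.mem_insert_of_mem (Finset.mem_insert_self _ _)
      obtain ⟨h3, h4, h5, h6⟩ := mem_Ed.1 hxy
      have hxT := (Finset.mem_insert.1 h3).resolve_left hxp
      have hyT := (Finset.mem_insert.1 h4).resolve_left hyp
      apply Finset.mem_insert_of_mem
      apply Finset.mem_insert_of_mem
      rw [hX, Finset.mem_filter]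
      refine ⟨mem_Ed.2 ⟨hxT, hyT, h5, fun c hc => h6 c (Finset.mem_insert_of_mem hc)⟩, ?_⟩
      have := h6 p (Finset.mem_insert_self _ _) (Ne.symm hxp) (Ne.symm hyp)
      exact not_lt.2 this.le
    · intro hxy
      rcases Finset.mem_insert.1 hxy with h | h
      · rw [h]; exact hb
      rcases Finset.mem_insert.1 h with h | h
      · rw [h]; exact ha
      rw [hX, Finset.mem_filter] at h
      obtain ⟨h3, h4⟩ := h
      obtain ⟨h5, h6, h7, h8⟩ := mem_Ed.1 h3
      refine mem_Ed.2 ⟨Finset.mem_insert_of_mem h5, Finset.mem_insert_of_mem h6, h7,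
        fun c hc hcx hcy => ?_⟩
      rcases Finset.mem_insert.1 hc with h9 | h9
      · subst h9
        have := hT x (Finset.mem_insert_of_mem h5) y (Finset.mem_insert_of_mem h6) c
          (Finset.mem_insert_self _ _) h7 hcx.symm hcy.symm
        exact lt_of_le_of_ne (not_lt.1 h4) (Ne.symm this)
      · exact h8 c h9 hcx hcy
  have hap : (a, p) ∉ X := by
    intro h
    exact hp (mem_Ed.1 (Finset.mem_filter.1 h).1).2.1
  have hpb : (p, b) ∉ insert (a, p) X := by
    intro h
    rcases Finset.mem_insert.1 h with h | h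
    · have h3 : p = a := congrArg Prod.fst h
      exact (mem_Ed.1 ha).2.2.1 h3.symm
    · exact hp (mem_Ed.1 (Finset.mem_filter.1 h).1).1
  rw [hEq, Finset.card_insert_of_notMem hpb, Finset.card_insert_of_notMem hap]
  have := Finset.card_filter_add_card_filter_not (s := Ed T) (fun e => orient e.1 e.2 p < 0)
  rw [← hX] at this
  omega

/-- the half plane to the left of an edge contains the convex hull -/
theorem orient_nonneg_of_hull {T : Finset E2} {a b p : E2} (h : (a, b) ∈ Ed T)
    (hp : p ∈ convexHull ℝ (T : Set E2)) : 0 ≤ orient a b p := by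
  obtain ⟨h1, h2, h3, h4⟩ := mem_Ed.1 h
  have hsub : (T : Set E2) ⊆ {q : E2 | 0 ≤ orient a b q} := by
    intro q hq
    by_cases hqa : q = a
    · subst hqa
      show 0 ≤ orient q b q
      rw [orient_self_left]
    by_cases hqb : q = b
    · subst hqb
      show 0 ≤ orient a q q
      rw [orient_self_right]
    · exact (h4 q hq hqa hqb).le
  have hconv : Convex ℝ {q : E2 | 0 ≤ orient a b q} := by
    intro x hx y hy s t hs ht hst
    show 0 ≤ orient a b (s • x + t • y)
    rw [orient_affine a b x y s t hst]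
    exact add_nonneg (mul_nonneg hs hx) (mul_nonneg ht hy)
  exact convexHull_min hsub hconv hp

/-- inserting a point of the hull keeps all edges -/
theorem Ed_insert_in [DecidableEq E2] {T : Finset E2} {p : E2} (hT : GenPos (insert p T))
    (hp : p ∉ T) (hext : p ∉ extPts (insert p T)) : Ed T ⊆ Ed (insert p T) := by
  rintro ⟨x, y⟩ h
  obtain ⟨h5, h6, h7, h8⟩ := mem_Ed.1 h
  have hhull : p ∈ convexHull ℝ (T : Set E2) := by
    by_contra hcon
    apply hext
    refine ⟨Finset.mem_insert_self _ _, ?_⟩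
    have : (((insert p T : Finset E2) : Set E2) \ {p}) = (T : Set E2) := by
      ext q
      simp only [Finset.coe_insert, Set.mem_sdiff, Set.mem_insert_iff, Set.mem_singleton_iff,
        Finset.mem_coe]
      constructor
      · rintro ⟨h1 | h1, h2⟩
        · exact absurd h1 h2
        · exact h1
      · intro h1
        exact ⟨Or.inr h1, fun h2 => hp (h2 ▸ h1)⟩
    rw [this]
    exact hcon
  have h0 := orient_nonneg_of_hull h hhull
  refine mem_Ed.2 ⟨Finset.mem_insert_of_mem h5, Finset.mem_insert_of_mem h6, h7,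
    fun c hc hcx hcy => ?_⟩
  rcases Finset.mem_insert.1 hc with h9 | h9
  · subst h9
    have := hT x (Finset.mem_insert_of_mem h5) y (Finset.mem_insert_of_mem h6) c
      (Finset.mem_insert_self _ _) h7 hcx.symm hcy.symm
    exact lt_of_le_of_ne h0 (Ne.symm this)
  · exact h8 c h9 hcx hcy

/-- the outer normal of an edge as an angle -/
theorem exists_normal {a b : E2} (hab : a ≠ b) :
    ∃ t r : ℝ, 0 < r ∧ ∀ c, orient a b c = -r * (hh c t - hh a t) := by
  set z : ℂ := ⟨b 1 - a 1, -(b 0 - a 0)⟩ with hz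
  have hz0 : z ≠ 0 := by
    intro h
    apply hab
    have h1 : z.re = 0 := by rw [h]; rfl
    have h2 : z.im = 0 := by rw [h]; rfl
    simp only [hz] at h1 h2
    ext i
    fin_cases i
    · show a 0 = b 0
      linarith
    · show a 1 = b 1
      linarith
  have hn : 0 < ‖z‖ := norm_pos_iff.2 hz0
  refine ⟨Complex.arg z, ‖z‖, hn, fun c => ?_⟩
  have e1 : ‖z‖ * cos (Complex.arg z) = b 1 - a 1 := by
    rw [Complex.cos_arg hz0, mul_div_cancel₀ _ hn.ne']
  have e2 : ‖z‖ * sin (Complex.arg z) = -(b 0 - a 0) := by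
    rw [Complex.sin_arg, mul_div_cancel₀ _ hn.ne']
  unfold orient hh
  linear_combination (c 0 - a 0) * e1 + (c 1 - a 1) * e2

end Pool.Agent.Lib.ECG
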