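import Pool.Agent.Lib.ECG.Edge

/-!
# The growth lemma

A polygon with at least `k` vertices whose supporting half planes have weight at most `c`, except
for the directions in two open arcs, gives an `n`-subset with at least `k` hull vertices.
-/

namespace Pool.Agent.Lib.ECG

open Pool.Agent.Lib.Pec6744 Real Filter Topology

theorem ext_mono {N T : Finset E2} (h : N ⊆ T) {a : E2} (haN : a ∈ N) (ha : a ∈ extPts T) :
    a ∈ extPts N := by
  refine ⟨haN, fun hmem => ha.2 ?_⟩
  apply convexHull_mono _ hmem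
  rintro q ⟨hq, hqa⟩
  exact ⟨h hq, hqa⟩

/-- a large set with `k` hull vertices contains an `n`-set with `k` hull vertices -/
theorem shrink {T : Finset E2} (hT : GenPos T) {n k : ℕ} (hkn : k ≤ n) (hn2 : 2 ≤ n)
    (hE : k ≤ (Ed T).card) (hTn : n ≤ T.card) :
    ∃ N : Finset E2, N ⊆ T ∧ N.card = n ∧ k ≤ (extPts N).ncard := by
  classical
  set X : Finset E2 := T.filter (fun a => a ∈ extPts T) with hX
  have hXT : X ⊆ T := Finset.filter_subset _ _
  have hXc : (X : Set E2) = extPts T := by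
    ext a
    rw [hX, Finset.coe_filter]
    exact ⟨fun h => h.2, fun h => ⟨h.1, h⟩⟩
  have hXcard : k ≤ X.card := by
    rw [← Set.ncard_coe_finset, hXc, ← Ed_card hT (by omega)]
    exact hE
  rcases le_total X.card n with h | h
  · obtain ⟨N, h1, h2, h3⟩ := Finset.exists_subsuperset_card_eq hXT h hTn
    refine ⟨N, h2, h3, ?_⟩
    have hsub : (X : Set E2) ⊆ extPts N := by
      intro a ha
      exact ext_mono h2 (h1 ha) (Finset.mem_filter.1 (Finset.mem_coe.1 ha)).2
    have := Set.ncard_le_ncard hsub (extPts_finite N)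
    rw [Set.ncard_coe_finset] at this
    omega
  · obtain ⟨N, h1, h2⟩ := Finset.exists_subset_card_eq h
    refine ⟨N, h1.trans hXT, h2, ?_⟩
    have hsub : (N : Set E2) ⊆ extPts N := by
      intro a ha
      exact ext_mono (h1.trans hXT) ha (Finset.mem_filter.1 (h1 ha)).2
    have := Set.ncard_le_ncard hsub (extPts_finite N)
    rw [Set.ncard_coe_finset] at this
    omega

theorem weight_lt {P D : Finset E2} {n : ℕ} {w : E2 → ℝ} (hw : ∀ p ∈ P, w p * n ≤ 4)
    (hD : D ⊆ P) (hn : D.card < n) : ∑ p ∈ D, w p < 4 := by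
  have hn0 : (0 : ℝ) < n := by
    have : 0 < n := by omega
    exact_mod_cast this
  have h1 : (∑ p ∈ D, w p) * n ≤ D.card * 4 := by
    rw [Finset.sum_mul]
    calc ∑ p ∈ D, w p * n ≤ ∑ p ∈ D, (4 : ℝ) := Finset.sum_le_sum fun p hp => hw p (hD hp)
      _ = D.card * 4 := by rw [Finset.sum_const, nsmul_eq_mul]
  have h2 : (D.card : ℝ) + 1 ≤ n := by exact_mod_cast hn
  by_contra hcon
  have hcon := not_lt.1 hcon
  nlinarith

open Classical in
/-- **Growth lemma.** -/
theorem geo {P : Finset E2} (hP : GenPos P) {n k : ℕ} (hk : 3 ≤ k) (w : E2 → ℝ)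
    (hw0 : ∀ p ∈ P, 0 ≤ w p) (hw : ∀ p ∈ P, w p * n ≤ 4) {T0 : Finset E2} (hT0 : T0 ⊆ P)
    (hkT : k ≤ T0.card) (hTn : T0.card ≤ n) (α β : Fin 2 → ℝ) (hαβ : ∀ i, β i < α i + 2 * π)
    {c : ℝ} (hc : 0 ≤ c)
    (ha : ∀ t, (∀ i, ¬ inG (α i) (β i) t) →
      ∑ p ∈ P.filter (fun p => Op T0 p t), w p ≤ c)
    (hb : ∀ i, ∀ a ∈ T0, ∃ t, ¬ inG (α i) (β i) t ∧ ∀ b ∈ T0, b ≠ a → hh b t < hh a t)
    (hd : ∀ i j, ¬ inG (α j) (β j) (α i) ∧ ¬ inG (α j) (β j) (β i))
    (hS : k * c / 3 + 4 * c + 12 ≤ ∑ p ∈ P, w p) :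
    ∃ T : Finset E2, T ⊆ P ∧ T.card = n ∧ k ≤ (extPts T).ncard := by
  classical
  have hkn : k ≤ n := hkT.trans hTn
  have hTne : T0.Nonempty := Finset.card_pos.1 (by omega)
  have gp : ∀ N : Finset E2, N ⊆ P → GenPos N := fun N hN a ha b hb c hc =>
    hP a (hN ha) b (hN hb) c (hN hc)
  by_contra hcon
  push Not at hcon
  -- the edges of `T0`
  have hE0 : k ≤ (Ed T0).card := by
    rw [Ed_card (gp T0 hT0) (by omega)]
    have hsub : (T0 : Set E2) ⊆ extPts T0 := by
      intro a haT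
      obtain ⟨t, _, h2⟩ := hb 0 a haT
      exact ext_of_dir haT h2
    have := Set.ncard_le_ncard hsub (extPts_finite T0)
    rw [Set.ncard_coe_finset] at this
    omega
  -- points whose arcs are inside one gap
  set D : Fin 2 → Finset E2 := fun i =>
    P.filter (fun p => ∀ t, Op T0 p t → inG (α i) (β i) t) with hD
  have hDP : ∀ i, D i ⊆ P := fun i => Finset.filter_subset _ _
  have hDn : ∀ i, (D i).card < n := by
    intro i
    by_contra hge
    have hge := not_lt.1 hge
    have hTD : T0 ⊆ D i := by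
      intro a haT
      refine Finset.mem_filter.2 ⟨hT0 haT, fun t h => ?_⟩
      exact absurd (h a haT) (lt_irrefl _)
    obtain ⟨N, h1, h2, h3⟩ := Finset.exists_subsuperset_card_eq hTD hTn hge
    have hsub : (T0 : Set E2) ⊆ extPts N := by
      intro a haT
      exact ext_of_inG h1 (hαβ i) (fun p hp => (Finset.mem_filter.1 (h2 hp)).2) haT (hb i a haT)
    have h4 := Set.ncard_le_ncard hsub (extPts_finite N)
    rw [Set.ncard_coe_finset] at h4
    have h5 := hcon N (h2.trans (hDP i)) h3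
    omega
  -- a largest set with at least `k` edges
  set F := P.powerset.filter (fun T => T0 ⊆ T ∧ k ≤ (Ed T).card) with hF
  have hFne : F.Nonempty :=
    ⟨T0, Finset.mem_filter.2 ⟨Finset.mem_powerset.2 hT0, Finset.Subset.refl _, hE0⟩⟩
  obtain ⟨T, hTF, hmax⟩ := F.exists_max_image Finset.card hFne
  obtain ⟨hTP, hT0T, hET⟩ := Finset.mem_filter.1 hTF
  rw [Finset.mem_powerset] at hTP
  have hTcard : T.card < n := by
    by_contra hge
    obtain ⟨N, h1, h2, h3⟩ := shrink (gp T hTP) hkn (by omega) hET (not_lt.1 hge)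
    have := hcon N (h1.trans hTP) h2
    omega
  set K := (Ed T).card with hK
  -- visible edges
  set vis : E2 → Finset (E2 × E2) := fun p => (Ed T).filter (fun e => orient e.1 e.2 p < 0)
    with hvis
  have hT1 : 1 ≤ T.card := by
    have := Finset.card_le_card hT0T
    omega
  have hmany : ∀ p ∈ P \ T, K + 3 ≤ (vis p).card + k := by
    intro p hp
    obtain ⟨hpP, hpT⟩ := Finset.mem_sdiff.1 hp
    have hins : insert p T ⊆ P := Finset.insert_subset hpP hTP
    have hlt : (Ed (insert p T)).card < k := by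
      by_contra hge
      have hge := not_lt.1 hge
      have := hmax (insert p T) (Finset.mem_filter.2 ⟨Finset.mem_powerset.2 hins,
        hT0T.trans (Finset.subset_insert _ _), hge⟩)
      rw [Finset.card_insert_of_notMem hpT] at this
      omega
    have hext : p ∈ extPts (insert p T) := by
      by_contra hne
      have := Finset.card_le_card (Ed_insert_in (gp _ hins) hpT hne)
      omega
    have h9 : (Ed (insert p T)).card + (vis p).card = K + 2 :=
      Ed_insert (gp _ hins) hpT hT1 hext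
    omega
  -- normals
  have hnorm : ∀ e : E2 × E2, ∃ t r : ℝ, e.1 ≠ e.2 → 0 < r ∧
      ∀ c, orient e.1 e.2 c = -r * (hh c t - hh e.1 t) := by
    intro e
    by_cases h : e.1 = e.2
    · exact ⟨0, 0, fun h' => absurd h h'⟩
    · obtain ⟨t, r, h1, h2⟩ := exists_normal h
      exact ⟨t, r, fun _ => ⟨h1, h2⟩⟩
  choose tn rn htn using hnorm
  have hOvis : ∀ p, ∀ e ∈ vis p, Op T0 p (tn e) := by
    intro p e he a haT
    obtain ⟨he1, he2⟩ := Finset.mem_filter.1 he
    obtain ⟨h1, h2, h3, h4⟩ := mem_Ed.1 (show (e.1, e.2) ∈ Ed T from he1)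
    obtain ⟨hr, hf⟩ := htn e h3
    have hp := hf p
    have haT' := hT0T haT
    have h5 : 0 ≤ orient e.1 e.2 a := by
      by_cases h6 : a = e.1
      · rw [h6, orient_self_left]
      by_cases h7 : a = e.2
      · rw [h7, orient_self_right]
      · exact (h4 a haT' h6 h7).le
    rw [hf a] at h5
    rw [hp] at he2
    have h8 : hh a (tn e) - hh e.1 (tn e) ≤ 0 := by
      by_contra hc2
      have := mul_pos hr (not_le.1 hc2)
      linarith
    have h9 : 0 < hh p (tn e) - hh e.1 (tn e) := by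
      by_contra hc2
      have := mul_nonneg hr.le (neg_nonneg.2 (not_lt.1 hc2))
      linarith
    linarith
  -- bad points
  set Bad : Fin 2 → Finset E2 := fun i =>
    (P \ T).filter (fun p => ∃ e ∈ vis p, inG (α i) (β i) (tn e)) with hBad
  have hBadw : ∀ i, ∑ p ∈ Bad i, w p ≤ 4 + 2 * c := by
    intro i
    set Oa := P.filter (fun p => Op T0 p (α i)) with hOa
    set Ob := P.filter (fun p => Op T0 p (β i)) with hOb
    have hsub : Bad i ⊆ D i ∪ (Oa ∪ Ob) := by
      intro p hp
      obtain ⟨h1, e, he, hG⟩ := Finset.mem_filter.1 hp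
      have hpP := (Finset.mem_sdiff.1 h1).1
      by_cases h2 : Op T0 p (α i)
      · exact Finset.mem_union_right _ (Finset.mem_union_left _ (Finset.mem_filter.2 ⟨hpP, h2⟩))
      by_cases h3 : Op T0 p (β i)
      · exact Finset.mem_union_right _ (Finset.mem_union_right _ (Finset.mem_filter.2 ⟨hpP, h3⟩))
      · exact Finset.mem_union_left _ (Finset.mem_filter.2 ⟨hpP, arc hTne (hOvis p e he) hG h2 h3⟩)
    have h1 : ∑ p ∈ Bad i, w p ≤ ∑ p ∈ D i ∪ (Oa ∪ Ob), w p := by
      apply Finset.sum_le_sum_of_subset_of_nonneg hsub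
      intro p hp _
      apply hw0
      rcases Finset.mem_union.1 hp with h | h
      · exact hDP i h
      rcases Finset.mem_union.1 h with h | h
      · exact (Finset.mem_filter.1 h).1
      · exact (Finset.mem_filter.1 h).1
    have h2 : ∑ p ∈ D i ∪ (Oa ∪ Ob), w p ≤ ∑ p ∈ D i, w p + (∑ p ∈ Oa, w p + ∑ p ∈ Ob, w p) := by
      have e1 := Finset.sum_union_inter (s₁ := D i) (s₂ := Oa ∪ Ob) (f := w)
      have e2 := Finset.sum_union_inter (s₁ := Oa) (s₂ := Ob) (f := w)
      have p1 : 0 ≤ ∑ p ∈ D i ∩ (Oa ∪ Ob), w p :=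
        Finset.sum_nonneg fun p hp => hw0 p (hDP i (Finset.mem_inter.1 hp).1)
      have p2 : 0 ≤ ∑ p ∈ Oa ∩ Ob, w p :=
        Finset.sum_nonneg fun p hp => hw0 p (Finset.mem_filter.1 (Finset.mem_inter.1 hp).1).1
      linarith
    have h3 := weight_lt hw (hDP i) (hDn i)
    have h4 := ha (α i) (fun j => (hd i j).1)
    have h5 := ha (β i) (fun j => (hd i j).2)
    linarith
  -- the remaining points
  set R := (P \ T) \ (Bad 0 ∪ Bad 1) with hR
  have hRw : (∑ p ∈ R, w p) * ((K : ℝ) + 3 - k) ≤ K * c := by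
    have h1 : (∑ p ∈ R, w p) * ((K : ℝ) + 3 - k) ≤ ∑ p ∈ R, w p * ((vis p).card : ℝ) := by
      rw [Finset.sum_mul]
      apply Finset.sum_le_sum
      intro p hp
      have hpPT := (Finset.mem_sdiff.1 hp).1
      have h2 := hmany p hpPT
      have h3 : (K : ℝ) + 3 ≤ (vis p).card + k := by exact_mod_cast h2
      exact mul_le_mul_of_nonneg_left (by linarith) (hw0 p (Finset.mem_sdiff.1 hpPT).1)
    have h2 : ∑ p ∈ R, w p * ((vis p).card : ℝ) =
        ∑ e ∈ Ed T, ∑ p ∈ R.filter (fun p => orient e.1 e.2 p < 0), w p := by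
      have : ∀ p ∈ R, w p * ((vis p).card : ℝ) =
          ∑ e ∈ Ed T, if orient e.1 e.2 p < 0 then w p else 0 := by
        intro p _
        rw [hvis, ← Finset.sum_filter, Finset.sum_const, nsmul_eq_mul, mul_comm]
      rw [Finset.sum_congr rfl this, Finset.sum_comm]
      apply Finset.sum_congr rfl
      intro e _
      rw [Finset.sum_filter]
    have h3 : ∀ e ∈ Ed T, ∑ p ∈ R.filter (fun p => orient e.1 e.2 p < 0), w p ≤ c := by
      intro e he
      rcases (R.filter (fun p => orient e.1 e.2 p < 0)).eq_empty_or_nonempty with h0 | ⟨q, hq⟩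
      · rw [h0, Finset.sum_empty]; exact hc
      · have hnG : ∀ i, ¬ inG (α i) (β i) (tn e) := by
          intro i hG
          obtain ⟨hqR, hqv⟩ := Finset.mem_filter.1 hq
          obtain ⟨hqPT, hqB⟩ := Finset.mem_sdiff.1 hqR
          apply hqB
          have hmem : q ∈ Bad i :=
            Finset.mem_filter.2 ⟨hqPT, e, Finset.mem_filter.2 ⟨he, hqv⟩, hG⟩
          rw [Finset.mem_union]
          fin_cases i
          · exact Or.inl hmem
          · exact Or.inr hmem
        refine le_trans ?_ (ha (tn e) hnG)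
        apply Finset.sum_le_sum_of_subset_of_nonneg
        · intro p hp
          obtain ⟨hpR, hpv⟩ := Finset.mem_filter.1 hp
          have hpP := (Finset.mem_sdiff.1 (Finset.mem_sdiff.1 hpR).1).1
          exact Finset.mem_filter.2 ⟨hpP, hOvis p e (Finset.mem_filter.2 ⟨he, hpv⟩)⟩
        · intro p hp _
          exact hw0 p (Finset.mem_filter.1 hp).1
    have h4 : ∑ e ∈ Ed T, ∑ p ∈ R.filter (fun p => orient e.1 e.2 p < 0), w p ≤ K * c := by
      calc _ ≤ ∑ e ∈ Ed T, c := Finset.sum_le_sum h3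
        _ = K * c := by rw [Finset.sum_const, nsmul_eq_mul]
    linarith
  -- total weight
  have hsplit : ∑ p ∈ P, w p ≤ ∑ p ∈ T, w p + (∑ p ∈ Bad 0, w p + ∑ p ∈ Bad 1, w p +
      ∑ p ∈ R, w p) := by
    have e1 := Finset.sum_sdiff (f := w) hTP
    have hB : Bad 0 ∪ Bad 1 ⊆ P \ T :=
      Finset.union_subset (Finset.filter_subset _ _) (Finset.filter_subset _ _)
    have e2 := Finset.sum_sdiff (f := w) hB
    have e3 := Finset.sum_union_inter (s₁ := Bad 0) (s₂ := Bad 1) (f := w)
    have p1 : 0 ≤ ∑ p ∈ Bad 0 ∩ Bad 1, w p := Finset.sum_nonneg fun p hp =>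
      hw0 p (Finset.mem_sdiff.1 (Finset.mem_filter.1 (Finset.mem_inter.1 hp).1).1).1
    rw [← hR] at e2
    linarith
  have hTw := weight_lt hw hTP hTcard
  have hRle : ∑ p ∈ R, w p ≤ k * c / 3 := by
    have hk3 : (3 : ℝ) ≤ k := by exact_mod_cast hk
    have hKk : (k : ℝ) ≤ K := by exact_mod_cast hET
    have hpos : (0 : ℝ) < (K : ℝ) + 3 - k := by linarith
    by_contra hgt
    have hgt := not_le.1 hgt
    have h1 : k * c / 3 * ((K : ℝ) + 3 - k) < K * c :=
      lt_of_lt_of_le (mul_lt_mul_of_pos_right hgt hpos) hRw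
    have h2 : (K : ℝ) * c ≤ k * c / 3 * ((K : ℝ) + 3 - k) := by
      have : 0 ≤ c * (((k : ℝ) - 3) * ((K : ℝ) - k)) :=
        mul_nonneg hc (mul_nonneg (by linarith) (by linarith))
      nlinarith
    linarith
  have hb0 := hBadw 0
  have hb1 := hBadw 1
  linarith

end Pool.Agent.Lib.ECG
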