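import Pool.Agent.Lib.Pec6744.Count

/-!
# Support functions of planar points along directions

`hh p t = ⟨p, (cos t, sin t)⟩`; periodic open arcs `inG a b`; the arc where a point is above a set.
-/

namespace Pool.Agent.Lib.ECG

open Pool.Agent.Lib.Pec6744 Real Filter Topology

/-- the height of `p` in direction `t` -/
noncomputable def hh (p : E2) (t : ℝ) : ℝ := p 0 * cos t + p 1 * sin t

/-- `t` lies in the open arc `(a, b)` modulo `2 π` -/
def inG (a b t : ℝ) : Prop := ∃ m : ℤ, a < t + 2 * π * m ∧ t + 2 * π * m < b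

/-- `p` is strictly above all points of `T0` in direction `t` -/
def Op (T0 : Finset E2) (p : E2) (t : ℝ) : Prop := ∀ a ∈ T0, hh a t < hh p t

theorem hh_three (p : E2) (t s t' : ℝ) :
    hh p s * sin (t' - t) = hh p t * sin (t' - s) + hh p t' * sin (s - t) := by
  unfold hh
  rw [sin_sub, sin_sub, sin_sub]
  ring

theorem hh_period (p : E2) (t : ℝ) (m : ℤ) : hh p (t + 2 * π * m) = hh p t := by
  unfold hh
  have e : t + 2 * π * m = t + m * (2 * π) := by ring
  rw [e, cos_add_int_mul_two_pi, sin_add_int_mul_two_pi]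

theorem hh_pi (p : E2) (t : ℝ) : hh p (t + π) = - hh p t := by
  unfold hh
  rw [cos_add_pi, sin_add_pi]
  ring

theorem hh_continuous (p : E2) : Continuous (hh p) := by
  unfold hh
  fun_prop

theorem hh_combo (x y : E2) (s t a b : ℝ) : hh (a • x + b • y) t = a * hh x t + b * hh y t := by
  simp only [hh, PiLp.add_apply, PiLp.smul_apply, smul_eq_mul]
  ring

theorem eq_of_hh {p a : E2} (h : ∀ t, hh p t = hh a t) : p = a := by
  ext i
  fin_cases i
  · have := h 0
    simpa [hh] using this
  · have := h (π / 2)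
    simpa [hh] using this

/-- two zeros of a difference at distance less than `π` force equality -/
theorem eq_of_two {p a : E2} {t s : ℝ} (h1 : hh p t = hh a t) (h2 : hh p s = hh a s)
    (hne : t < s) (hlt : s - t < π) : p = a := by
  apply eq_of_hh
  intro x
  have k1 := hh_three p t x s
  have k2 := hh_three a t x s
  rw [h1, h2] at k1
  have : 0 < sin (s - t) := sin_pos_of_pos_of_lt_pi (by linarith) hlt
  have k3 : hh p x * sin (s - t) = hh a x * sin (s - t) := by rw [k1, k2]
  exact mul_right_cancel₀ this.ne' k3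

theorem eventually_ne {p a : E2} (hpa : p ≠ a) (t : ℝ) : ∀ᶠ s in 𝓝[≠] t, hh p s ≠ hh a s := by
  have hball : ∀ᶠ s in 𝓝[≠] t, s ∈ Set.Ioo (t - 1) (t + 1) :=
    nhdsWithin_le_nhds (Ioo_mem_nhds (by linarith) (by linarith))
  have hne : ∀ᶠ s in 𝓝[≠] t, s ≠ t := eventually_mem_nhdsWithin
  by_cases h : hh p t = hh a t
  · filter_upwards [hball, hne] with s hs hst heq
    have hpi := pi_gt_three
    rcases lt_or_gt_of_ne hst with h1 | h1
    · exact hpa (eq_of_two heq h h1 (by linarith [hs.1]))
    · exact hpa (eq_of_two h heq h1 (by linarith [hs.2]))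
  · have h1 : ContinuousAt (fun s => hh p s - hh a s) t :=
      ((hh_continuous p).sub (hh_continuous a)).continuousAt
    have h2 : ∀ᶠ s in 𝓝 t, hh p s - hh a s ≠ 0 := h1.eventually_ne (sub_ne_zero.2 h)
    have h3 : ∀ᶠ s in 𝓝 t, hh p s ≠ hh a s := by
      filter_upwards [h2] with s hs heq
      exact hs (sub_eq_zero.2 heq)
    exact nhdsWithin_le_nhds h3

theorem Op.between {T0 : Finset E2} {p : E2} {t t' s : ℝ} (h : Op T0 p t) (h' : Op T0 p t')
    (hlt : t' - t < π) (h1 : t ≤ s) (h2 : s ≤ t') : Op T0 p s := by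
  intro a ha
  rcases h1.eq_or_lt with h3 | h3
  · rw [← h3]; exact h a ha
  have k1 := hh_three p t s t'
  have k2 := hh_three a t s t'
  have p1 : 0 < sin (t' - t) := sin_pos_of_pos_of_lt_pi (by linarith) hlt
  have p2 : 0 < sin (s - t) := sin_pos_of_pos_of_lt_pi (by linarith) (by linarith)
  have p3 : 0 ≤ sin (t' - s) := sin_nonneg_of_nonneg_of_le_pi (by linarith) (by linarith)
  have d1 : 0 ≤ (hh p t - hh a t) * sin (t' - s) := mul_nonneg (by linarith [h a ha]) p3
  have d2 : 0 < (hh p t' - hh a t') * sin (s - t) := mul_pos (by linarith [h' a ha]) p2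
  have d3 : 0 < (hh p s - hh a s) * sin (t' - t) := by nlinarith
  have := (mul_pos_iff_of_pos_right p1).1 d3
  linarith

theorem Op.period {T0 : Finset E2} {p : E2} {t : ℝ} (h : Op T0 p t) (m : ℤ) :
    Op T0 p (t + 2 * π * m) := by
  intro a ha
  rw [hh_period, hh_period]
  exact h a ha

theorem Op.not_antip {T0 : Finset E2} (hT0 : T0.Nonempty) {p : E2} {t : ℝ} (h : Op T0 p t) :
    ¬ Op T0 p (t + π) := by
  intro h'
  obtain ⟨a, ha⟩ := hT0
  have h1 := h a ha
  have h2 := h' a ha
  rw [hh_pi, hh_pi] at h2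
  linarith

/-- representative of `t'` in the window `(x - π, x + π]` -/
theorem exists_rep (x t' : ℝ) : ∃ m : ℤ, x - π < t' + 2 * π * m ∧ t' + 2 * π * m ≤ x + π := by
  refine ⟨⌊(x - t' + π) / (2 * π)⌋, ?_, ?_⟩
  · have h := Int.lt_floor_add_one ((x - t' + π) / (2 * π))
    rw [div_lt_iff₀ (by positivity)] at h
    linarith
  · have h := Int.floor_le ((x - t' + π) / (2 * π))
    rw [le_div_iff₀ (by positivity)] at h
    linarith

theorem inG.shift {α β t : ℝ} (m : ℤ) (h : inG α β (t + 2 * π * m)) : inG α β t := by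
  obtain ⟨j, h1, h2⟩ := h
  refine ⟨m + j, ?_, ?_⟩
  · push_cast; linarith
  · push_cast; linarith

theorem inG.shift' {α β t : ℝ} (m : ℤ) (h : inG α β t) : inG α β (t + 2 * π * m) := by
  obtain ⟨j, h1, h2⟩ := h
  refine ⟨j - m, ?_, ?_⟩
  · push_cast; linarith
  · push_cast; linarith

/-- **Arc lemma.** The arc of a point is contained in `G` or contains an end point of `G` or is
disjoint from `G`. -/
theorem arc {T0 : Finset E2} (hT0 : T0.Nonempty) {p : E2} {α β t : ℝ} (hO : Op T0 p t)
    (hG : inG α β t) (hα : ¬ Op T0 p α) (hβ : ¬ Op T0 p β) : ∀ t', Op T0 p t' → inG α β t' := by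
  intro t' hO'
  obtain ⟨m, hm1, hm2⟩ := hG
  have hOt := hO.period m
  set x := t + 2 * π * m with hx
  obtain ⟨j, hj1, hj2⟩ := exists_rep x t'
  have hOt' := hO'.period j
  apply inG.shift j
  set y := t' + 2 * π * j with hy
  have hyx : y < x + π := by
    rcases hj2.lt_or_eq with h | h
    · exact h
    · exact absurd (h ▸ hOt') (hOt.not_antip hT0)
  refine ⟨0, ?_, ?_⟩
  · simp only [Int.cast_zero, mul_zero, add_zero]
    by_contra hcon
    have hcon := not_lt.1 hcon
    exact hα (hOt'.between hOt (by linarith) hcon hm1.le)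
  · simp only [Int.cast_zero, mul_zero, add_zero]
    by_contra hcon
    have hcon := not_lt.1 hcon
    exact hβ (hOt.between hOt' (by linarith) hm2.le hcon)

/-- the complement of an open arc contains the closed complementary arc -/
theorem not_inG_of_mem {α β s : ℝ} (h1 : β ≤ s) (h2 : s ≤ α + 2 * π) : ¬ inG α β s := by
  rintro ⟨m, hm1, hm2⟩
  have hpi := pi_pos
  rcases lt_or_ge m 0 with h | h
  · have : (m : ℝ) ≤ -1 := by exact_mod_cast Int.le_sub_one_of_lt h
    nlinarith
  · have : (0 : ℝ) ≤ m := by exact_mod_cast h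
    nlinarith

/-- a point of the complement of a proper open arc is a limit from one side of the complement -/
theorem one_sided {α β t : ℝ} (hαβ : β < α + 2 * π) (ht : ¬ inG α β t) :
    (∀ᶠ s in 𝓝[>] t, ¬ inG α β s) ∨ (∀ᶠ s in 𝓝[<] t, ¬ inG α β s) := by
  rcases le_or_gt β α with h0 | h0
  · left
    refine Filter.Eventually.of_forall ?_
    rintro s ⟨m, h1, h2⟩
    linarith
  · -- the representative in `[β, β + 2 π)`
    set m : ℤ := -⌊(t - β) / (2 * π)⌋ with hm
    have hb1 : β ≤ t + 2 * π * m := by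
      have h := Int.floor_le ((t - β) / (2 * π))
      rw [le_div_iff₀ (by positivity)] at h
      rw [hm]; push_cast; linarith
    have hb2 : t + 2 * π * m < β + 2 * π := by
      have h := Int.lt_floor_add_one ((t - β) / (2 * π))
      rw [div_lt_iff₀ (by positivity)] at h
      rw [hm]; push_cast; linarith
    set x := t + 2 * π * m with hx
    have hx2 : x ≤ α + 2 * π := by
      by_contra hcon
      have hcon := not_le.1 hcon
      apply ht
      refine ⟨m - 1, ?_, ?_⟩
      · push_cast; linarith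
      · push_cast; linarith
    rcases hx2.lt_or_eq with h3 | h3
    · left
      have hmem : Set.Ioo t (t + (α + 2 * π - x)) ∈ 𝓝[>] t :=
        Ioo_mem_nhdsGT (by linarith)
      filter_upwards [hmem] with s hs hin
      exact not_inG_of_mem (s := s + 2 * π * m) (by linarith [hs.1]) (by linarith [hs.2])
        (hin.shift' m)
    · right
      have hmem : Set.Ioo (t - (x - β)) t ∈ 𝓝[<] t :=
        Ioo_mem_nhdsLT (by linarith)
      filter_upwards [hmem] with s hs hin
      exact not_inG_of_mem (s := s + 2 * π * m) (by linarith [hs.1]) (by linarith [hs.2])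
        (hin.shift' m)

/-- a strict maximum in some direction is a hull vertex -/
theorem ext_of_dir {N : Finset E2} {a : E2} (ha : a ∈ N) {s : ℝ}
    (h : ∀ p ∈ N, p ≠ a → hh p s < hh a s) : a ∈ extPts N := by
  refine ⟨ha, fun hmem => ?_⟩
  have hsub : ((N : Set E2) \ {a}) ⊆ {q : E2 | hh q s < hh a s} := by
    rintro q ⟨hq, hqa⟩
    exact h q hq hqa
  have hconv : Convex ℝ {q : E2 | hh q s < hh a s} := by
    intro x hx y hy c d hc hd hcd
    simp only [Set.mem_ofPred_eq] at hx hy ⊢
    rw [hh_combo x y s s c d]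
    rcases hc.eq_or_lt with h0 | h0
    · have : d = 1 := by linarith
      rw [← h0, this]; linarith
    · have e : hh a s = c * hh a s + d * hh a s := by rw [← add_mul, hcd, one_mul]
      rw [e]
      exact add_lt_add_of_lt_of_le (mul_lt_mul_of_pos_left hx h0)
        (mul_le_mul_of_nonneg_left hy.le hd)
  have := convexHull_min hsub hconv hmem
  simp only [Set.mem_ofPred_eq, lt_irrefl] at this

/-- points whose arcs are inside `G` do not destroy the vertices of `T0` -/
theorem ext_of_inG {T0 N : Finset E2} (hTN : T0 ⊆ N) {α β : ℝ} (hαβ : β < α + 2 * π)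
    (hN : ∀ p ∈ N, ∀ t, Op T0 p t → inG α β t) {a : E2} (ha : a ∈ T0)
    (hb : ∃ t, ¬ inG α β t ∧ ∀ b ∈ T0, b ≠ a → hh b t < hh a t) : a ∈ extPts N := by
  obtain ⟨t, ht, hmax⟩ := hb
  have key : ∀ F : Filter ℝ, F.NeBot → F ≤ 𝓝[≠] t → (∀ᶠ s in F, ¬ inG α β s) → a ∈ extPts N := by
    intro F hF hle hev
    have h1 : ∀ᶠ s in F, ∀ b ∈ T0, b ≠ a → hh b s < hh a s := by
      rw [Finset.eventually_all]
      intro b hb
      by_cases hba : b = a
      · exact Filter.Eventually.of_forall fun s h => absurd hba h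
      · have : ∀ᶠ s in 𝓝 t, hh b s < hh a s :=
          (hh_continuous b).continuousAt.eventually_lt (hh_continuous a).continuousAt
            (hmax b hb hba)
        have h2 : ∀ᶠ s in F, hh b s < hh a s := (hle.trans nhdsWithin_le_nhds) this
        filter_upwards [h2] with s hs _ using hs
    have h3 : ∀ᶠ s in F, ∀ p ∈ N, p ≠ a → hh p s ≠ hh a s := by
      rw [Finset.eventually_all]
      intro p hp
      by_cases hpa : p = a
      · exact Filter.Eventually.of_forall fun s h => absurd hpa h
      · have h2 : ∀ᶠ s in F, hh p s ≠ hh a s := hle (eventually_ne hpa t)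
        filter_upwards [h2] with s hs _ using hs
    obtain ⟨s, hs1, hs2, hs3⟩ := (hev.and (h1.and h3)).exists
    apply ext_of_dir (hTN ha) (s := s)
    intro p hp hpa
    have h4 : ¬ Op T0 p s := fun h => hs1 (hN p hp s h)
    unfold Op at h4
    push Not at h4
    obtain ⟨b, hb, hpb⟩ := h4
    have h5 : hh b s ≤ hh a s := by
      by_cases hba : b = a
      · rw [hba]
      · exact (hs2 b hb hba).le
    exact lt_of_le_of_ne (hpb.trans h5) (hs3 p hp hpa)
  rcases one_sided hαβ ht with h | h
  · exact key (𝓝[>] t) inferInstance (nhdsWithin_mono t fun s hs => ne_of_gt hs) h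
  · exact key (𝓝[<] t) inferInstance (nhdsWithin_mono t fun s hs => ne_of_lt hs) h

end Pool.Agent.Lib.ECG
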